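import Pool.Agent.helper47.SC.Spec

/-!
# Row sc:GGF (MP_0015b7_an): the norm of the polynomials `G_k`
-/

set_option autoImplicit false

namespace Pool.Agent.SC

theorem GGF (h1 : EPS_stmt) : GGF_stmt := by
  intro s m hm k p
  obtain ⟨-, -, -, hE⟩ := h1 m hm
  induction k with
  | zero => simp [GG, EE]
  | succ k ih =>
    have hE0 : ((EE m (k + 1) : ℕ) : ℝ) ≠ 0 := by
      have := hE (k + 1)
      positivity
    have h2 : (‖p.2 - (s k).1‖ ^ (eps m k)) ^ (EE m (k + 1)) = ‖p.2 - (s k).1‖ := by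
      rw [← Real.rpow_natCast, ← Real.rpow_mul (norm_nonneg _)]
      unfold eps
      rw [one_div, inv_mul_cancel₀ hE0, Real.rpow_one]
    have h3 : EE m (k + 1) = EE m k * m k := rfl
    have h4 : GG s m (k + 1) p = (GG s m k p) ^ (m k) * (p.2 - (s k).1) := rfl
    rw [Finset.prod_range_succ, ← mul_assoc, mul_pow, h2, h3, pow_mul, ← ih, h4, norm_mul, norm_pow]

end Pool.Agent.SC
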