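import Pool.Agent.helper82.SC.SpecA

/-!
Project sp, module CA: configurations with a source on the boundary are colourings.
-/

namespace Pool.Agent.helper82.SC

open Relation

theorem CA_dd (a : ZMod 2) : a + a = 0 := CharTwo.add_self_eq_zero a

theorem CA_cases (d e : Fin 3) : e = d ∨ e = d + 1 ∨ e = d + 2 := by
  fin_cases d <;> fin_cases e <;> simp

/-- the opposite face of a dart with exterior ends at a face of the domain is exterior -/
theorem CA_outer (D : Dom) (x : Dart) (hF : D.FU x.1) (h1 : S x.1 x.2 ∉ D.U)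
    (h2 : S x.1 (x.2 + 1) ∉ D.U) : ¬ D.FU (star x).1 := by
  obtain ⟨e, he⟩ := hF
  have h3 : S x.1 (x.2 + 2) ∈ D.U := by
    rcases CA_cases x.2 e with h | h | h
    · rw [h] at he; exact absurd he h1
    · rw [h] at he; exact absurd he h2
    · rw [h] at he; exact he
  have h4 := D.outer x.1 x.2 h3 h1 h2
  rintro ⟨e', he'⟩
  change S (tw x.1 x.2) e' ∈ D.U at he'
  rcases CA_cases x.2 e' with h | h | h
  · rw [h, S_tw] at he'; exact h2 he'
  · rw [h, S_tw'] at he'; exact h1 he'
  · rw [h] at he'; exact h4 he'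

theorem CA_ext (D : Dom) (x : Dart) (h : ¬ D.FU (star x).1) :
    S x.1 x.2 ∉ D.U ∧ S x.1 (x.2 + 1) ∉ D.U := by
  constructor
  · intro h1
    apply h
    refine ⟨x.2 + 1, ?_⟩
    change S (tw x.1 x.2) (x.2 + 1) ∈ D.U
    rw [S_tw']; exact h1
  · intro h1
    apply h
    refine ⟨x.2, ?_⟩
    change S (tw x.1 x.2) x.2 ∈ D.U
    rw [S_tw]; exact h1

theorem CA_wall (D : Dom) (x : Dart) : D.wall (star x) = D.wall x := by
  unfold Dom.wall
  change (if D.sec (S (tw x.1 x.2) x.2) = D.sec (S (tw x.1 x.2) (x.2 + 1)) then (0 : ZMod 2) else 1) = _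
  rw [S_tw, S_tw']
  by_cases h : D.sec (S x.1 x.2) = D.sec (S x.1 (x.2 + 1))
  · rw [if_pos h, if_pos h.symm]
  · rw [if_neg h, if_neg fun h' => h h'.symm]

theorem CA_psix_pos (D : Dom) (β : V → ZMod 2) (s : Finset V) (x : Dart) (h : D.FU x.1) :
    psix D β s x = cx D β s (S x.1 x.2) + cx D β s (S x.1 (x.2 + 1)) := by
  unfold psix; rw [if_pos h]

theorem CA_psix_neg (D : Dom) (β : V → ZMod 2) (s : Finset V) (x : Dart) (h : ¬ D.FU x.1) :
    psix D β s x = D.wall x := by
  unfold psix; rw [if_neg h]

theorem CA_cx_out (D : Dom) (β : V → ZMod 2) (s : Finset V) (v : V) (h : v ∉ D.U) :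
    cx D β s v = β v := by
  unfold cx; rw [if_neg h]

theorem CA_cx_in (D : Dom) (β : V → ZMod 2) (s : Finset V) (v : V) (h : v ∈ D.U) :
    cx D β s v = (open Classical in if v ∈ s then 1 else 0) := by
  unfold cx; rw [if_pos h]

theorem CA_maps (D : Dom) (β : V → ZMod 2) (z : Dart) (hz : Bdry D β z) (s : Finset V) :
    psix D β s ∈ D.Conf z := by
  obtain ⟨hzF, hz1, hz2, hzb⟩ := hz
  have hzo := CA_outer D z hzF hz1 hz2
  refine ⟨fun f hf => ?_, fun x => ?_, fun x hx => CA_psix_neg D β s x hx⟩
  · rw [CA_psix_pos D β s (f, 0) hf, CA_psix_pos D β s (f, 1) hf, CA_psix_pos D β s (f, 2) hf]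
    have e1 : ((0 : Fin 3) + 1) = 1 := rfl
    have e2 : ((1 : Fin 3) + 1) = 2 := rfl
    have e3 : ((2 : Fin 3) + 1) = 0 := rfl
    simp only [e1, e2, e3]
    linear_combination CA_dd (cx D β s (S f 0)) + CA_dd (cx D β s (S f 1)) +
      CA_dd (cx D β s (S f 2))
  · have hst : (star x = z) ↔ (x = star z) := by
      constructor
      · intro h; rw [← h, star_star]
      · intro h; rw [h, star_star]
    by_cases h1 : D.FU x.1
    · have hx2 : x ≠ star z := fun h => hzo (h ▸ h1)
      by_cases h2 : D.FU (star x).1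
      · have hx1 : x ≠ z := fun h => hzo (h ▸ h2)
        rw [if_neg (not_or.2 ⟨hx1, hx2⟩), add_zero, CA_psix_pos D β s x h1,
          CA_psix_pos D β s (star x) h2]
        change cx D β s (S (tw x.1 x.2) x.2) + cx D β s (S (tw x.1 x.2) (x.2 + 1)) = _
        rw [S_tw, S_tw', add_comm]
      · obtain ⟨h3, h4⟩ := CA_ext D x h2
        rw [CA_psix_neg D β s (star x) h2, CA_wall, CA_psix_pos D β s x h1,
          CA_cx_out D β s _ h3, CA_cx_out D β s _ h4, hzb x h1 h3 h4]
        have h5 : (x = z ∨ x = star z) ↔ x = z := by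
          constructor
          · rintro (h | h)
            · exact h
            · exact absurd h hx2
          · exact Or.inl
        simp only [h5]
        linear_combination -CA_dd (if x = z then (1 : ZMod 2) else 0)
    · have hx1 : x ≠ z := fun h => h1 (h ▸ hzF)
      have h5 : (x = z ∨ x = star z) ↔ star x = z := by
        rw [hst]
        constructor
        · rintro (h | h)
          · exact absurd h hx1
          · exact h
        · exact Or.inr
      simp only [h5]
      rw [CA_psix_neg D β s x h1]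
      by_cases h2 : D.FU (star x).1
      · have h6 : ¬ D.FU (star (star x)).1 := by rw [star_star]; exact h1
        obtain ⟨h3, h4⟩ := CA_ext D (star x) h6
        rw [CA_psix_pos D β s (star x) h2, CA_cx_out D β s _ h3, CA_cx_out D β s _ h4,
          hzb (star x) h2 h3 h4, CA_wall]
      · rw [CA_psix_neg D β s (star x) h2, CA_wall, if_neg, add_zero]
        intro h
        exact h2 (h ▸ hzF)

theorem CA_zero (D : Dom) (c : V → ZMod 2) (h0 : ∀ v, v ∉ D.U → c v = 0)
    (h1 : ∀ x : Dart, D.FU x.1 → c (S x.1 x.2) = c (S x.1 (x.2 + 1))) (v : V) : c v = 0 := by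
  have key : ∀ (n : ℕ) (v : V), (v.1 - n, v.2) ∉ D.U → c v = 0 := by
    intro n
    induction n with
    | zero =>
      intro v hv
      apply h0
      simpa using hv
    | succ n ih =>
      intro v hv
      by_cases hvU : v ∈ D.U
      · have h2 : TAdj (v.1 - 1, v.2) v := by
          left
          simp
        obtain ⟨x, hx1, hx2⟩ := h2.exists_dart
        have h3 := h1 x ⟨x.2 + 1, by rw [hx2]; exact hvU⟩
        rw [hx1, hx2] at h3
        rw [← h3]
        apply ih
        have : ((v.1 - 1, v.2) : V).1 - (n : ℤ) = v.1 - ((n + 1 : ℕ) : ℤ) := by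
          push_cast; ring
        rw [this]
        exact hv
      · exact h0 v hvU
  have hex : ∃ n : ℕ, (v.1 - n, v.2) ∉ D.U := by
    by_contra hcon
    push Not at hcon
    have hinj : Function.Injective fun n : ℕ => ((v.1 - n, v.2) : V) := by
      intro a b hab
      have := congrArg Prod.fst hab
      simp at this
      exact this
    exact (Set.infinite_of_injective_forall_mem hinj (s := (D.U : Set V)) fun n => hcon n)
      D.U.finite_toSet
  obtain ⟨n, hn⟩ := hex
  exact key n v hn

theorem CA : CA_stmt := by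
  classical
  intro D β z hz
  refine ⟨fun s _ => CA_maps D β z hz s, ?_, ?_⟩
  · intro s hs s' hs' heq
    have hc : ∀ v, cx D β s v + cx D β s' v = 0 := by
      apply CA_zero D
      · intro v hv
        rw [CA_cx_out D β s v hv, CA_cx_out D β s' v hv]
        exact CA_dd _
      · intro x hx
        have h1 := congrFun heq x
        rw [CA_psix_pos D β s x hx, CA_psix_pos D β s' x hx] at h1
        linear_combination h1 + CA_dd (cx D β s' (S x.1 x.2)) -
          CA_dd (cx D β s (S x.1 (x.2 + 1)))
    have hs1 : s ⊆ D.U := hs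
    have hs2 : s' ⊆ D.U := hs'
    ext v
    by_cases hv : v ∈ D.U
    · have h1 := hc v
      rw [CA_cx_in D β s v hv, CA_cx_in D β s' v hv] at h1
      by_cases h2 : v ∈ s <;> by_cases h3 : v ∈ s' <;> simp_all
    · exact ⟨fun h => absurd (hs1 h) hv, fun h => absurd (hs2 h) hv⟩
  · intro ψ hψ
    have h0 := CA_maps D β z hz ∅
    obtain ⟨e1, y1, o1⟩ := hψ
    obtain ⟨e0, y0, o0⟩ := h0
    have hout : ∀ x : Dart, ¬ D.FU x.1 → ψ x + psix D β ∅ x = 0 := by
      intro x hx
      rw [o1 x hx, o0 x hx]
      exact CA_dd _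
    have hsym : ∀ x : Dart, ψ (star x) + psix D β ∅ (star x) = ψ x + psix D β ∅ x := by
      intro x
      rw [y1 x, y0 x]
      linear_combination CA_dd (if x = z ∨ x = star z then (1 : ZMod 2) else 0)
    obtain ⟨c, hc0, hc⟩ := D.poincare (fun x => ψ x + psix D β ∅ x) (by
      intro f
      by_cases hf : D.FU f
      · have := e1 f hf
        have := e0 f hf
        linear_combination e1 f hf + e0 f hf
      · rw [hout (f, 0) hf, hout (f, 1) hf, hout (f, 2) hf]
        simp) hsym (by
      intro x hx1 hx2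
      by_cases hf : D.FU x.1
      · have h1 := CA_outer D x hf hx1 hx2
        rw [← hsym x]
        exact hout (star x) h1
      · exact hout x hf)
    refine ⟨D.U.filter fun v => c v = 1, Finset.filter_subset _ _, ?_⟩
    have hcx : ∀ v, cx D β (D.U.filter fun v => c v = 1) v = c v + cx D β ∅ v := by
      intro v
      by_cases hv : v ∈ D.U
      · rw [CA_cx_in D β _ v hv, CA_cx_in D β ∅ v hv]
        have h01 : c v = 0 ∨ c v = 1 := by
          generalize c v = a
          revert a
          decide
        rcases h01 with h | h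
        · rw [if_neg (by simp [h])]
          simp [h]
        · rw [if_pos (by simp [h, hv])]
          simp [h]
      · rw [CA_cx_out D β _ v hv, CA_cx_out D β ∅ v hv, hc0 v hv, zero_add]
    funext x
    by_cases hf : D.FU x.1
    · rw [CA_psix_pos D β _ x hf, hcx, hcx]
      have h1 := hc x
      rw [CA_psix_pos D β ∅ x hf] at h1
      linear_combination -h1 + CA_dd (cx D β ∅ (S x.1 x.2) + cx D β ∅ (S x.1 (x.2 + 1)))
    · rw [CA_psix_neg D β _ x hf, o1 x hf]

end Pool.Agent.helper82.SC
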