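import Pool.Agent.helper82.SC.SpecB

/-!
Project sp, module GQ: distances in the unit square.
-/

namespace Pool.Agent.helper82.SC

theorem GQ_re {w u : ℂ} {ρ : ℝ} (h : ‖w - u‖ ≤ ρ) : |w.re - u.re| ≤ ρ := by
  have := Complex.abs_re_le_norm (w - u)
  rw [Complex.sub_re] at this
  linarith

theorem GQ_im {w u : ℂ} {ρ : ℝ} (h : ‖w - u‖ ≤ ρ) : |w.im - u.im| ≤ ρ := by
  have := Complex.abs_im_le_norm (w - u)
  rw [Complex.sub_im] at this
  linarith

theorem GQ_norm {w u : ℂ} {ρ : ℝ} (h1 : |w.re - u.re| ≤ ρ) (h2 : |w.im - u.im| ≤ ρ) :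
    ‖w - u‖ ≤ 2 * ρ := by
  have := Complex.norm_le_abs_re_add_abs_im (w - u)
  rw [Complex.sub_re, Complex.sub_im] at this
  linarith

theorem GQ_co0 : co 0 = Complex.I := by simp [co]
theorem GQ_co1 : co 1 = 0 := by simp [co]
theorem GQ_co2 : co 2 = 1 + Complex.I := by simp [co]

theorem GQ_arc0 {w : ℂ} (h : w ∈ arc 0) : w.im = 0 ∨ w.re = 1 := by
  have := h.2
  simpa using this

theorem GQ_arc1 {w : ℂ} (h : w ∈ arc 1) : w.im = 1 := by
  have := h.2
  simpa using this

theorem GQ_arc2 {w : ℂ} (h : w ∈ arc 2) : w.re = 0 := by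
  have := h.2
  simpa using this

/-- near the arcs `1` and `2` -/
theorem GQ_c0 {w u v : ℂ} {ρ : ℝ} (hu : u ∈ arc 1) (hv : v ∈ arc 2) (h1 : ‖w - u‖ ≤ ρ)
    (h2 : ‖w - v‖ ≤ ρ) : ‖w - co 0‖ ≤ 2 * ρ := by
  have e1 := GQ_im h1
  have e2 := GQ_re h2
  rw [GQ_arc1 hu] at e1
  rw [GQ_arc2 hv] at e2
  rw [GQ_co0]
  exact GQ_norm (by simpa using e2) (by simpa using e1)

theorem GQ_c1 {w u v : ℂ} {ρ : ℝ} (hρ : ρ ≤ 1 / 4) (hu : u ∈ arc 0) (hv : v ∈ arc 2)
    (h1 : ‖w - u‖ ≤ ρ) (h2 : ‖w - v‖ ≤ ρ) : ‖w - co 1‖ ≤ 2 * ρ := by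
  have e2 := GQ_re h2
  rw [GQ_arc2 hv] at e2
  rw [GQ_co1]
  rcases GQ_arc0 hu with h | h
  · have e1 := GQ_im h1
    rw [h] at e1
    exact GQ_norm (by simpa using e2) (by simpa using e1)
  · have e1 := GQ_re h1
    rw [h] at e1
    rw [abs_le] at e1 e2
    linarith [e1.1, e2.2]

theorem GQ_c2 {w u v : ℂ} {ρ : ℝ} (hρ : ρ ≤ 1 / 4) (hu : u ∈ arc 0) (hv : v ∈ arc 1)
    (h1 : ‖w - u‖ ≤ ρ) (h2 : ‖w - v‖ ≤ ρ) : ‖w - co 2‖ ≤ 2 * ρ := by
  have e2 := GQ_im h2
  rw [GQ_arc1 hv] at e2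
  rw [GQ_co2]
  rcases GQ_arc0 hu with h | h
  · have e1 := GQ_im h1
    rw [h] at e1
    rw [abs_le] at e1 e2
    linarith [e1.2, e2.1]
  · have e1 := GQ_re h1
    rw [h] at e1
    exact GQ_norm (by simpa using e1) (by simpa using e2)

theorem GQ : GQ_stmt := by
  constructor
  · intro m w hw
    by_contra hlt
    push Not at hlt
    have a1 := GQ_re hlt.le
    have a2 := GQ_im hlt.le
    have b1 : |w.re - (co m).re| < 1 := by
      have := Complex.abs_re_le_norm (w - co m)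
      rw [Complex.sub_re] at this
      linarith
    have b2 : |w.im - (co m).im| < 1 := by
      have := Complex.abs_im_le_norm (w - co m)
      rw [Complex.sub_im] at this
      linarith
    have hm : m = 0 ∨ m = 1 ∨ m = 2 := by omega
    rcases hm with rfl | rfl | rfl
    · rw [GQ_co0] at b1 b2
      rcases GQ_arc0 hw with h | h
      · rw [h] at b2
        norm_num at b2
      · rw [h] at b1
        norm_num at b1
    · rw [GQ_co1] at b1 b2
      rw [GQ_arc1 hw] at b2
      norm_num at b2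
    · rw [GQ_co2] at b1 b2
      rw [GQ_arc2 hw] at b1
      norm_num at b1
  · intro j k m hjk hmj hmk ρ hρ w _ u hu v hv h1 h2
    have hm : m = 0 ∨ m = 1 ∨ m = 2 := by omega
    have hj : j = 0 ∨ j = 1 ∨ j = 2 := by omega
    have hk : k = 0 ∨ k = 1 ∨ k = 2 := by omega
    rcases hm with rfl | rfl | rfl
    · rcases hj with rfl | rfl | rfl
      · exact absurd rfl hmj
      · rcases hk with rfl | rfl | rfl
        · exact absurd rfl hmk
        · exact absurd rfl hjk
        · exact GQ_c0 hu hv h1 h2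
      · rcases hk with rfl | rfl | rfl
        · exact absurd rfl hmk
        · exact GQ_c0 hv hu h2 h1
        · exact absurd rfl hjk
    · rcases hj with rfl | rfl | rfl
      · rcases hk with rfl | rfl | rfl
        · exact absurd rfl hjk
        · exact absurd rfl hmk
        · exact GQ_c1 hρ hu hv h1 h2
      · exact absurd rfl hmj
      · rcases hk with rfl | rfl | rfl
        · exact GQ_c1 hρ hv hu h2 h1
        · exact absurd rfl hmk
        · exact absurd rfl hjk
    · rcases hj with rfl | rfl | rfl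
      · rcases hk with rfl | rfl | rfl
        · exact absurd rfl hjk
        · exact GQ_c2 hρ hu hv h1 h2
        · exact absurd rfl hmk
      · rcases hk with rfl | rfl | rfl
        · exact GQ_c2 hρ hv hu h2 h1
        · exact absurd rfl hjk
        · exact absurd rfl hmk
      · exact absurd rfl hmj

end Pool.Agent.helper82.SC
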