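import Pool.Agent.helper82.SC.SpecC

/-!
Project sp, module MO: Morera for the unit square.
-/

namespace Pool.Agent.helper82.SC

open Relation Filter Topology Complex MeasureTheory
open scoped Interval

theorem MO_Qs : Qs = (Set.Icc (0 : ℝ) 1) ×ℂ (Set.Icc (0 : ℝ) 1) := by
  ext w
  simp only [Qs, Set.mem_ofPred_eq, Complex.mem_reProdIm, Set.mem_Icc]
  tauto

theorem MO_int (w : ℂ) : w ∈ interior Qs ↔ (0 < w.re ∧ w.re < 1) ∧ (0 < w.im ∧ w.im < 1) := by
  rw [MO_Qs, Complex.interior_reProdIm, interior_Icc]
  simp only [Complex.mem_reProdIm, Set.mem_Ioo]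

theorem MO : MO_stmt := by
  intro f hf h
  rw [← Complex.isConservativeOn_and_continuousOn_iff_isDifferentiableOn isOpen_interior]
  refine ⟨?_, hf.mono interior_subset⟩
  intro z w hzw
  rw [← add_eq_zero_iff_eq_neg, Complex.wedgeIntegral_add_wedgeIntegral_eq]
  simp only [smul_eq_mul]
  have hz : z ∈ interior Qs := hzw (by
    refine ⟨?_, ?_⟩
    · exact Set.left_mem_uIcc
    · exact Set.left_mem_uIcc)
  have hw : w ∈ interior Qs := hzw (by
    refine ⟨?_, ?_⟩
    · exact Set.right_mem_uIcc
    · exact Set.right_mem_uIcc)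
  rw [MO_int] at hz hw
  obtain ⟨⟨a1, a2⟩, a3, a4⟩ := hz
  obtain ⟨⟨b1, b2⟩, b3, b4⟩ := hw
  rcases le_total z.re w.re with hr | hr <;> rcases le_total z.im w.im with hi | hi
  · exact h z.re w.re z.im w.im a1 hr b2 a3 hi b4
  · have h1 := h z.re w.re w.im z.im a1 hr b2 b3 hi a4
    rw [intervalIntegral.integral_symm w.im z.im,
      intervalIntegral.integral_symm (a := w.im) (b := z.im)]
    linear_combination -h1
  · have h1 := h w.re z.re z.im w.im b1 hr a2 a3 hi b4
    rw [intervalIntegral.integral_symm w.re z.re,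
      intervalIntegral.integral_symm (a := w.re) (b := z.re)]
    linear_combination -h1
  · have h1 := h w.re z.re w.im z.im b1 hr a2 b3 hi a4
    rw [intervalIntegral.integral_symm w.re z.re,
      intervalIntegral.integral_symm (a := w.re) (b := z.re),
      intervalIntegral.integral_symm w.im z.im,
      intervalIntegral.integral_symm (a := w.im) (b := z.im)]
    linear_combination h1

end Pool.Agent.helper82.SC
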