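import Pool.Agent.helper83.SC.Stmt

/-! Module GA of the SC project: an extreme point can be cut off by a line (port of helper14/Sch/GA
to all dimensions). -/

open scoped Pointwise ContDiff
open MeasureTheory Set Filter Topology

namespace Pool.Agent.helper83.SC

theorem GA_conv {m : ℕ} {f : E m → ℝ} (hf : CV f) {t : ℝ} (h0 : 0 ≤ t) (h1 : t ≤ 1)
    (y : E m) : f (t • y) ≤ f 0 + t * (f y - f 0) := by
  have := hf.2 (mem_univ y) (mem_univ 0) h0 (by linarith : 0 ≤ 1 - t) (by ring)
  rw [smul_zero, add_zero, smul_eq_mul, smul_eq_mul] at this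
  linarith

theorem GA_flat {m : ℕ} {f : E m → ℝ} (hf : CV f) {ρ : ℝ} (hρ : 0 < ρ) {y : E m}
    (h : f (-(ρ • y)) - f 0 ≤ -(ρ * (f y - f 0))) : FlatAt f 0 y := by
  refine ⟨min (1 : ℝ) ρ, lt_min one_pos hρ, ?_⟩
  set ε := min (1 : ℝ) ρ with hε
  have hε0 : 0 < ε := lt_min one_pos hρ
  have h1 := GA_conv hf hε0.le (min_le_left _ _) y
  have h2 := GA_conv hf (t := ε / ρ) (by positivity) (by
    rw [div_le_one hρ]; exact min_le_right _ _) (-(ρ • y))
  have h3 : (ε / ρ) • (-(ρ • y)) = -(ε • y) := by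
    rw [smul_neg, smul_smul]
    congr 2
    field_simp
  rw [h3] at h2
  have h4 : ε / ρ * (f (-(ρ • y)) - f 0) ≤ ε / ρ * (-(ρ * (f y - f 0))) :=
    mul_le_mul_of_nonneg_left h (by positivity)
  have h5 : ε / ρ * (-(ρ * (f y - f 0))) = -(ε * (f y - f 0)) := by
    field_simp
  have h6 := hf.2 (mem_univ (ε • y)) (mem_univ (-(ε • y))) (by norm_num : (0 : ℝ) ≤ 1 / 2)
    (by norm_num : (0 : ℝ) ≤ 1 / 2) (by norm_num)
  rw [smul_neg, add_neg_cancel, smul_eq_mul, smul_eq_mul] at h6
  rw [zero_add, zero_sub]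
  linarith

/-- convex hulls of compact sets are compact -/
theorem GA_hull {m : ℕ} {s : Set (E m × ℝ)} (hs : IsCompact s) : IsCompact (convexHull ℝ s) := by
  rcases s.eq_empty_or_nonempty with rfl | ⟨s₀, hs₀⟩
  · simp
  set n := Module.finrank ℝ (E m × ℝ) + 1 with hn
  set T : Set ((Fin n → ℝ) × (Fin n → E m × ℝ)) := stdSimplex ℝ (Fin n) ×ˢ (univ.pi fun _ => s) with hT
  have hTc : IsCompact T := (isCompact_stdSimplex ℝ (Fin n)).prod (isCompact_univ_pi fun _ => hs)
  have himg : (fun x : (Fin n → ℝ) × (Fin n → E m × ℝ) => ∑ i, x.1 i • x.2 i) '' T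
      = convexHull ℝ s := by
    apply Subset.antisymm
    · rintro _ ⟨⟨w, z⟩, ⟨hw, hz⟩, rfl⟩
      exact (convex_convexHull ℝ s).sum_mem (fun i _ => hw.1 i) hw.2
        (fun i _ => subset_convexHull ℝ s (hz i (mem_univ i)))
    · intro x hx
      obtain ⟨ι, _, z, w, hz, hai, hw0, hw1, hx⟩ := eq_pos_convex_span_of_mem_convexHull hx
      have hcard : Fintype.card ι ≤ Fintype.card (Fin n) := by
        rw [Fintype.card_fin]
        exact hai.card_le_finrank_succ.trans (Nat.succ_le_succ (Submodule.finrank_le _))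
      obtain ⟨e⟩ := Function.Embedding.nonempty_of_card_le hcard
      have e1 : ∀ i, Function.extend e w 0 (e i) = w i := fun i => e.injective.extend_apply _ _ _
      have e2 : ∀ i, Function.extend e z (fun _ => s₀) (e i) = z i :=
        fun i => e.injective.extend_apply _ _ _
      have e3 : ∀ j, (¬ ∃ i, e i = j) → Function.extend e w 0 j = 0 :=
        fun j hj => Function.extend_apply' _ _ _ hj
      have e4 : ∀ j, (¬ ∃ i, e i = j) → Function.extend e z (fun _ => s₀) j = s₀ :=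
        fun j hj => Function.extend_apply' _ _ _ hj
      refine ⟨(Function.extend e w 0, Function.extend e z fun _ => s₀), ⟨⟨?_, ?_⟩, ?_⟩, ?_⟩
      · intro j
        show 0 ≤ Function.extend e w 0 j
        by_cases hj : ∃ i, e i = j
        · obtain ⟨i, rfl⟩ := hj
          rw [e1]
          exact (hw0 i).le
        · rw [e3 j hj]
      · show ∑ j, Function.extend e w 0 j = 1
        rw [← hw1]
        refine (Fintype.sum_of_injective e e.injective w _ ?_ ?_).symm
        · intro j hj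
          exact e3 j (by simpa using hj)
        · intro i
          rw [e1]
      · intro j _
        show Function.extend e z (fun _ => s₀) j ∈ s
        by_cases hj : ∃ i, e i = j
        · obtain ⟨i, rfl⟩ := hj
          rw [e2]
          exact hz ⟨i, rfl⟩
        · rw [e4 j hj]
          exact hs₀
      · show ∑ j, Function.extend e w 0 j • Function.extend e z (fun _ => s₀) j = x
        rw [← hx]
        refine (Fintype.sum_of_injective e e.injective (fun i => w i • z i) _ ?_ ?_).symm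
        · intro j hj
          rw [e3 j (by simpa using hj), zero_smul]
        · intro i
          rw [e1, e2]
  rw [← himg]
  exact hTc.image (by fun_prop)

theorem GA_disj {m : ℕ} {f : E m → ℝ} (hf : CV f) (h0 : ∀ v, v ≠ 0 → ¬ FlatAt f 0 v)
    {r : ℝ} (hr : 0 < r) {t : ℝ} (ht : t ≤ f 0) :
    ((0 : E m), t) ∉ convexHull ℝ ((fun y : E m => (y, f y)) '' Metric.sphere 0 r) := by
  rw [convexHull_eq]
  rintro ⟨ι, T, w, z, hw0, hw1, hz, hc⟩
  classical
  have hz1 : ∀ i ∈ T, (z i).1 ≠ 0 := by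
    intro i hi
    obtain ⟨y, hy, hyz⟩ := hz i hi
    rw [← hyz]
    intro h
    simp only at h
    rw [h, mem_sphere_zero_iff_norm, norm_zero] at hy
    linarith
  have hz2 : ∀ i ∈ T, (z i).2 = f (z i).1 := by
    intro i hi
    obtain ⟨y, hy, hyz⟩ := hz i hi
    rw [← hyz]
  rw [Finset.centerMass_eq_of_sum_1 _ _ hw1] at hc
  have hc1 : ∑ i ∈ T, w i • (z i).1 = 0 := by
    have := congrArg Prod.fst hc
    rwa [Prod.fst_sum] at this
  have hc2 : ∑ i ∈ T, w i * f (z i).1 = t := by
    have := congrArg Prod.snd hc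
    rw [Prod.snd_sum] at this
    refine Eq.trans ?_ this
    exact Finset.sum_congr rfl fun i hi => by rw [← hz2 i hi]; rfl
  obtain ⟨i₀, hi₀, hwi⟩ : ∃ i ∈ T, 0 < w i := by
    by_contra hcon
    push Not at hcon
    have := Finset.sum_nonpos hcon
    linarith
  rw [← Finset.add_sum_erase T _ hi₀] at hw1 hc1 hc2
  set R := ∑ j ∈ T.erase i₀, w j with hR
  have hwe : ∀ j ∈ T.erase i₀, 0 ≤ w j := fun j hj => hw0 j (Finset.mem_of_mem_erase hj)
  have hR0 : 0 ≤ R := Finset.sum_nonneg hwe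
  rcases hR0.eq_or_lt with hR1 | hR1
  · -- all other weights vanish
    have h1 : ∀ j ∈ T.erase i₀, w j = 0 := (Finset.sum_eq_zero_iff_of_nonneg hwe).1 hR1.symm
    have h2 : ∑ j ∈ T.erase i₀, w j • (z j).1 = 0 :=
      Finset.sum_eq_zero fun j hj => by rw [h1 j hj, zero_smul]
    rw [h2, add_zero] at hc1
    rcases smul_eq_zero.1 hc1 with h | h
    · linarith
    · exact hz1 i₀ hi₀ h
  · have hJ := hf.map_sum_le (t := T.erase i₀) (w := fun j => w j / R) (p := fun j => (z j).1)
      (fun j hj => div_nonneg (hwe j hj) hR1.le) (by rw [← Finset.sum_div, ← hR, div_self hR1.ne'])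
      (fun j _ => mem_univ _)
    have e1 : ∑ j ∈ T.erase i₀, (w j / R) • (z j).1 = -((w i₀ / R) • (z i₀).1) := by
      have h1 : ∑ j ∈ T.erase i₀, (w j / R) • (z j).1
          = R⁻¹ • ∑ j ∈ T.erase i₀, w j • (z j).1 := by
        rw [Finset.smul_sum]
        exact Finset.sum_congr rfl fun j _ => by rw [smul_smul, div_eq_inv_mul]
      rw [h1, eq_neg_of_add_eq_zero_right hc1, smul_neg, smul_smul, div_eq_inv_mul]
    have e2 : ∑ j ∈ T.erase i₀, (w j / R) • f (z j).1 = (t - w i₀ * f (z i₀).1) / R := by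
      have h1 : ∑ j ∈ T.erase i₀, (w j / R) • f (z j).1
          = R⁻¹ * ∑ j ∈ T.erase i₀, w j * f (z j).1 := by
        rw [Finset.mul_sum]
        exact Finset.sum_congr rfl fun j _ => by rw [smul_eq_mul]; ring
      rw [h1, ← hc2]
      field_simp
      ring
    rw [e1, e2] at hJ
    refine h0 _ (hz1 i₀ hi₀) (GA_flat hf (div_pos hwi hR1) ?_)
    rw [le_div_iff₀ hR1] at hJ
    have h3 : w i₀ / R * (f (z i₀).1 - f 0) * R = w i₀ * (f (z i₀).1 - f 0) := by
      field_simp
    have h4 : (f (-((w i₀ / R) • (z i₀).1)) - f 0) * R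
        ≤ -(w i₀ / R * (f (z i₀).1 - f 0)) * R := by
      rw [neg_mul, h3]
      have : w i₀ = 1 - R := by linarith
      rw [this] at hJ ⊢
      nlinarith
    exact le_of_mul_le_mul_right h4 hR1

theorem exists_cut : exists_cut_stmt := by
  intro m f hf h0 r hr
  have hcont : Continuous f := continuousOn_univ.mp (ConvexOn.continuousOn isOpen_univ hf)
  by_cases hsph : (Metric.sphere (0 : E m) r).Nonempty
  swap
  · -- dimension zero
    refine ⟨0, f 0 + 1, 1, one_pos, by linarith, fun y hy => ?_⟩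
    exfalso
    have hy0 : 0 < ‖y‖ := hr.trans_le hy
    apply hsph
    refine ⟨(r / ‖y‖) • y, ?_⟩
    rw [mem_sphere_zero_iff_norm, norm_smul, Real.norm_eq_abs, abs_of_pos (div_pos hr hy0),
      div_mul_cancel₀ _ hy0.ne']
  obtain ⟨y₀, hy₀⟩ := hsph
  rw [mem_sphere_zero_iff_norm] at hy₀
  have hcomp : IsCompact (convexHull ℝ ((fun y : E m => (y, f y)) '' Metric.sphere 0 r)) :=
    GA_hull ((isCompact_sphere (0 : E m) r).image (continuous_id.prodMk hcont))
  have hRconv : Convex ℝ ({0} ×ˢ Iic (f 0) : Set (E m × ℝ)) :=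
    (convex_singleton 0).prod (convex_Iic _)
  have hRclosed : IsClosed ({0} ×ˢ Iic (f 0) : Set (E m × ℝ)) := isClosed_singleton.prod isClosed_Iic
  have hdisj : Disjoint (convexHull ℝ ((fun y : E m => (y, f y)) '' Metric.sphere 0 r))
      ({0} ×ˢ Iic (f 0) : Set (E m × ℝ)) := by
    rw [Set.disjoint_left]
    rintro ⟨y, t⟩ h1 ⟨h2, h3⟩
    simp only [mem_singleton_iff, mem_Iic] at h2 h3
    subst h2
    exact GA_disj hf h0 hr h3 h1
  obtain ⟨φ, u, v, h1, huv, h2⟩ := geometric_hahn_banach_compact_closed (convex_convexHull ℝ _)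
    hcomp hRconv hRclosed hdisj
  -- the functional in coordinates
  set α : E m := (InnerProductSpace.toDual ℝ (E m)).symm
    (φ.comp (ContinuousLinearMap.inl ℝ (E m) ℝ)) with hα
  set β := φ ((0 : E m), (1 : ℝ)) with hβ
  have hφ : ∀ (y : E m) (t : ℝ), φ (y, t) = inner ℝ α y + β * t := by
    intro y t
    have e1 : ((y, t) : E m × ℝ) = (y, 0) + t • ((0 : E m), (1 : ℝ)) := by
      simp
    rw [e1, map_add, map_smul]
    have e2 : inner ℝ α y = φ (y, 0) := by
      rw [hα, InnerProductSpace.toDual_symm_apply]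
      rfl
    rw [e2, smul_eq_mul, mul_comm]
  have hS : ∀ y : E m, ‖y‖ = r → inner ℝ α y + β * f y < u := by
    intro y hy
    rw [← hφ]
    exact h1 _ (subset_convexHull ℝ _ ⟨y, by simpa using hy, rfl⟩)
  have hR : ∀ t ≤ f 0, v < β * t := by
    intro t ht
    have := h2 ((0 : E m), t) ⟨rfl, ht⟩
    rw [hφ] at this
    simpa using this
  have hβ0 : β < 0 := by
    rcases lt_trichotomy β 0 with h | h | h
    · exact h
    · exfalso
      have h3 := hR (f 0) le_rfl
      rw [h, zero_mul] at h3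
      have h4 := hS y₀ hy₀
      have h5 := hS (-y₀) (by rw [norm_neg]; exact hy₀)
      rw [inner_neg_right] at h5
      simp only [h, zero_mul, add_zero] at h4 h5
      linarith
    · exfalso
      have h3 := hR (min (f 0) (v / β)) (min_le_left _ _)
      have h4 : β * min (f 0) (v / β) ≤ β * (v / β) :=
        mul_le_mul_of_nonneg_left (min_le_right _ _) h.le
      rw [mul_div_cancel₀ _ h.ne'] at h4
      linarith
  set b := -β with hb
  have hb0 : 0 < b := by rw [hb]; linarith
  set κ := -u / b - f 0 with hκ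
  have hκ0 : 0 < κ := by
    rw [hκ, sub_pos, lt_div_iff₀ hb0]
    have := hR (f 0) le_rfl
    have h3 : β * f 0 = -(f 0 * b) := by rw [hb]; ring
    linarith
  have hS2 : ∀ y : E m, ‖y‖ = r → inner ℝ (b⁻¹ • α) y + f 0 + κ ≤ f y := by
    intro y hy
    have h3 := hS y hy
    have h4 : β = -b := by rw [hb]; ring
    rw [h4] at h3
    have h5 : inner ℝ (b⁻¹ • α) y + f 0 + κ = (inner ℝ α y - u) / b := by
      rw [real_inner_smul_left, hκ]
      field_simp
      ring
    rw [h5, div_le_iff₀ hb0]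
    linarith
  refine ⟨b⁻¹ • α, f 0 + κ / 2, κ / (2 * r), by positivity, by linarith, ?_⟩
  intro y hy
  have hyn : 0 < ‖y‖ := hr.trans_le hy
  set l := r / ‖y‖ with hl
  have hl0 : 0 < l := div_pos hr hyn
  have hl1 : l ≤ 1 := by rw [hl, div_le_one hyn]; exact hy
  have h3 := GA_conv hf hl0.le hl1 y
  have h4 := hS2 (l • y) (by
    rw [norm_smul, Real.norm_eq_abs, abs_of_pos hl0, hl, div_mul_cancel₀ _ hyn.ne'])
  have h5 : inner ℝ (b⁻¹ • α) (l • y) = l * inner ℝ (b⁻¹ • α) y := real_inner_smul_right _ _ _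
  rw [h5] at h4
  have h6 : κ ≤ l * (f y - f 0 - inner ℝ (b⁻¹ • α) y) := by linarith
  have h7 : κ * ‖y‖ / r ≤ f y - f 0 - inner ℝ (b⁻¹ • α) y := by
    rw [div_le_iff₀ hr]
    have h8 : κ * ‖y‖ ≤ l * (f y - f 0 - inner ℝ (b⁻¹ • α) y) * ‖y‖ :=
      mul_le_mul_of_nonneg_right h6 hyn.le
    have h9 : l * (f y - f 0 - inner ℝ (b⁻¹ • α) y) * ‖y‖
        = (f y - f 0 - inner ℝ (b⁻¹ • α) y) * r := by
      rw [hl]; field_simp
    linarith
  have h10 : κ / 2 + κ / (2 * r) * ‖y‖ ≤ κ * ‖y‖ / r := by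
    have h11 : κ / 2 ≤ κ * ‖y‖ / (2 * r) := by
      rw [div_le_div_iff₀ (by norm_num) (by positivity)]
      nlinarith
    have h12 : κ * ‖y‖ / r = κ * ‖y‖ / (2 * r) + κ / (2 * r) * ‖y‖ := by
      field_simp; ring
    linarith
  linarith

end Pool.Agent.helper83.SC
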