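import Pool.Agent.helper83.SC.Stmt

/-!
Module JF of the SC project: the variation of the volume functional (port of helper54/Sch/JF to all
dimensions).
-/

open scoped Pointwise ContDiff
open MeasureTheory Set Filter Topology

namespace Pool.Agent.helper83.SC

theorem JF_continuous {m : ℕ} {f : E m → ℝ} (hf : CV f) : Continuous f := by
  have h := ConvexOn.continuousOn isOpen_univ hf
  exact continuousOn_univ.mp h

/-- The domain of the conjugate. -/
def JF_dom {m : ℕ} (f : E m → ℝ) : Set (E m) := {p | BddAbove (range (fun y => inner ℝ p y - f y))}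

theorem JF_dom_convex {m : ℕ} (f : E m → ℝ) : Convex ℝ (JF_dom f) := by
  rintro p ⟨M, hM⟩ q ⟨N, hN⟩ a b ha hb hab
  refine ⟨a * M + b * N, ?_⟩
  rintro _ ⟨y, rfl⟩
  have h1 : inner ℝ p y - f y ≤ M := hM ⟨y, rfl⟩
  have h2 : inner ℝ q y - f y ≤ N := hN ⟨y, rfl⟩
  have h3 : inner ℝ (a • p + b • q) y = a * inner ℝ p y + b * inner ℝ q y := by
    rw [inner_add_left, real_inner_smul_left, real_inner_smul_left]
  have h4 : f y = a * f y + b * f y := by rw [← add_mul, hab, one_mul]
  have h5 := mul_le_mul_of_nonneg_left h1 ha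
  have h6 := mul_le_mul_of_nonneg_left h2 hb
  simp only
  rw [h3]
  linarith

theorem JF_norm_le {m : ℕ} (y : E m) : ‖y‖ ≤ ∑ i, |y i| := by
  have h : y = ∑ i, y i • EuclideanSpace.single i (1 : ℝ) := by
    have := (EuclideanSpace.basisFun (Fin m) ℝ).sum_repr y
    simpa using this.symm
  calc ‖y‖ = ‖∑ i, y i • EuclideanSpace.single i (1 : ℝ)‖ := by rw [← h]
    _ ≤ ∑ i, ‖y i • EuclideanSpace.single i (1 : ℝ)‖ := norm_sum_le _ _
    _ = ∑ i, |y i| := by
        refine Finset.sum_congr rfl fun i _ => ?_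
        rw [norm_smul]; simp

theorem JF_coercive {m : ℕ} {f : E m → ℝ} {p : E m} (hp : p ∈ interior (JF_dom f)) :
    ∃ δ > 0, ∃ C, ∀ y, inner ℝ p y - f y ≤ C - δ * ‖y‖ := by
  rw [mem_interior_iff_mem_nhds, Metric.mem_nhds_iff] at hp
  obtain ⟨δ, hδ, hball⟩ := hp
  have key : ∀ v : E m, ‖v‖ ≤ δ / 2 → ∃ M, ∀ y, inner ℝ p y + inner ℝ v y - f y ≤ M := by
    intro v hv
    have h1 : p + v ∈ JF_dom f := by
      apply hball
      rw [Metric.mem_ball, dist_eq_norm]
      simp only [add_sub_cancel_left]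
      linarith
    obtain ⟨M, hM⟩ := h1
    refine ⟨M, fun y => ?_⟩
    have h2 : inner ℝ (p + v) y - f y ≤ M := hM ⟨y, rfl⟩
    rwa [inner_add_left] at h2
  have hδ2 : 0 < δ / 2 := by linarith
  have hn : ∀ i : Fin m, ‖(EuclideanSpace.single i (δ / 2) : E m)‖ ≤ δ / 2 := by
    intro i; simp [abs_of_pos hδ]
  have hn' : ∀ i : Fin m, ‖(EuclideanSpace.single i (-(δ / 2)) : E m)‖ ≤ δ / 2 := by
    intro i; simp [abs_of_pos hδ]
  obtain ⟨M0, h0⟩ := key 0 (by rw [norm_zero]; exact hδ2.le)
  choose M1 h1 using fun i : Fin m => key _ (hn i)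
  choose M2 h2 using fun i : Fin m => key _ (hn' i)
  refine ⟨δ / 2 / (m + 1), by positivity, |M0| + ∑ i, (|M1 i| + |M2 i|), fun y => ?_⟩
  have a0 : inner ℝ p y - f y ≤ |M0| := by
    have := h0 y
    rw [inner_zero_left] at this
    linarith [le_abs_self M0]
  have a1 : ∀ i, inner ℝ p y - f y + δ / 2 * |y i| ≤ |M1 i| + |M2 i| := by
    intro i
    have b1 := h1 i y
    have b2 := h2 i y
    rw [EuclideanSpace.inner_single_left] at b1 b2
    simp only [conj_trivial] at b1 b2
    have e1 := le_abs_self (M1 i)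
    have e2 := le_abs_self (M2 i)
    have f1 := abs_nonneg (M1 i)
    have f2 := abs_nonneg (M2 i)
    rcases abs_choice (y i) with h' | h' <;> rw [h'] <;> linarith
  set q := inner ℝ p y - f y with hq
  set S := ∑ i, (|M1 i| + |M2 i|) with hS
  have hS0 : 0 ≤ S := Finset.sum_nonneg fun i _ => by positivity
  have a2 : (m : ℝ) * q + δ / 2 * ∑ i, |y i| ≤ S := by
    have := Finset.sum_le_sum (s := Finset.univ) fun i _ => a1 i
    rw [Finset.sum_add_distrib, Finset.sum_const, Finset.card_univ, Fintype.card_fin,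
      nsmul_eq_mul, ← Finset.mul_sum] at this
    exact this
  have a3 := JF_norm_le y
  have a4 : δ / 2 * ‖y‖ ≤ δ / 2 * ∑ i, |y i| := mul_le_mul_of_nonneg_left a3 hδ2.le
  have a5 : ((m : ℝ) + 1) * q + δ / 2 * ‖y‖ ≤ |M0| + S := by nlinarith
  have hm : (0 : ℝ) < (m : ℝ) + 1 := by positivity
  have a6 : |M0| + S ≤ ((m : ℝ) + 1) * (|M0| + S) := by
    have : 0 ≤ |M0| + S := by positivity
    nlinarith [Nat.cast_nonneg (α := ℝ) m]
  have a7 : ((m : ℝ) + 1) * (δ / 2 / (m + 1) * ‖y‖) = δ / 2 * ‖y‖ := by field_simp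
  have a8 : ((m : ℝ) + 1) * q ≤ ((m : ℝ) + 1) * (|M0| + S - δ / 2 / (m + 1) * ‖y‖) := by
    rw [mul_sub ((m : ℝ) + 1) (|M0| + S), a7]; linarith
  exact le_of_mul_le_mul_left a8 hm

theorem JF_exists_argmin {m : ℕ} {f : E m → ℝ} (hf : Continuous f) {p : E m} {δ C : ℝ} (hδ : 0 < δ)
    (h : ∀ y, inner ℝ p y - f y ≤ C - δ * ‖y‖) : ∃ y, IsArgmin f p y := by
  have hc : Continuous (fun z : E m => f z - inner ℝ p z) := by
    fun_prop
  have hlim : Tendsto (fun z : E m => f z - inner ℝ p z) (cocompact (E m)) atTop := by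
    have h1 : Tendsto (fun z : E m => δ * ‖z‖ - C) (cocompact (E m)) atTop := by
      apply tendsto_atTop_add_const_right
      exact (tendsto_norm_cocompact_atTop).const_mul_atTop hδ
    refine tendsto_atTop_mono (fun z => ?_) h1
    have := h z
    linarith
  obtain ⟨y, hy⟩ := hc.exists_forall_le hlim
  exact ⟨y, hy⟩

theorem JF_conj_eq {m : ℕ} {f : E m → ℝ} {p y : E m} (h : IsArgmin f p y) :
    conj f p = inner ℝ p y - f y := by
  apply le_antisymm
  · exact ciSup_le fun z => by have := h z; linarith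
  · exact le_ciSup (f := fun z => inner ℝ p z - f z)
      ⟨inner ℝ p y - f y, by rintro _ ⟨z, rfl⟩; have := h z; simp only; linarith⟩ y

theorem JF_sel_eq {m : ℕ} {φ f : E m → ℝ} {p y : E m} (h : IsArgmin f p y)
    (hu : ∀ y y', IsArgmin f p y → IsArgmin f p y' → y = y') : sel φ f p = φ y := by
  have h1 : {z | IsArgmin f p z} = {y} := by
    ext z
    simp only [mem_ofPred_eq, mem_singleton_iff]
    exact ⟨fun hz => hu z y hz h, fun hz => hz ▸ h⟩
  rw [sel, h1, image_singleton, csSup_singleton]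

theorem JF_conj_measurable {m : ℕ} {f : E m → ℝ} (hf : Continuous f) : Measurable (conj f) := by
  have h1 : conj f = fun p => ⨆ s : range (TopologicalSpace.denseSeq (E m)),
      (inner ℝ p (s : E m) - f (s : E m)) := by
    funext p
    have hc : Continuous (fun z : E m => inner ℝ p z - f z) := by
      fun_prop
    exact ((TopologicalSpace.denseRange_denseSeq (E m)).ciSup' hc).symm
  rw [h1]
  have : Countable (range (TopologicalSpace.denseSeq (E m))) := by
    exact (countable_range _).to_subtype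
  apply Measurable.iSup
  intro s
  fun_prop

/-- The path from `f` to `f + φ`. -/
def JF_G {m : ℕ} (f φ : E m → ℝ) (t : ℝ) (x : E m) : ℝ := f x + t * φ x

theorem JF_G_CV {m : ℕ} {φ f : E m → ℝ} (hf : CV f) (hf' : CV (fun x => f x + φ x)) {t : ℝ}
    (h0 : 0 ≤ t) (h1 : t ≤ 1) : CV (JF_G f φ t) := by
  have h2 : JF_G f φ t = fun x => (1 - t) * f x + t * (f x + φ x) := by
    funext x
    simp only [JF_G]
    ring
  rw [h2]
  have a1 := hf.smul (sub_nonneg.2 h1)
  have a2 := hf'.smul h0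
  exact a1.add a2

theorem JF_step (hAL : ae_argmin_unique_stmt) {m : ℕ} {φ f : E m → ℝ} (hφ : Test φ) (hf : CV f)
    (hf' : CV (fun x => f x + φ x)) {t t' : ℝ} (h0 : 0 ≤ t) (htt' : t ≤ t') (h1 : t' ≤ 1) :
    (∀ᵐ p, (t' - t) * sel φ (JF_G f φ t') p ≤ conj (JF_G f φ t) p - conj (JF_G f φ t') p) ∧
    (∀ᵐ p, conj (JF_G f φ t) p - conj (JF_G f φ t') p ≤ (t' - t) * sel φ (JF_G f φ t) p) := by
  have hfc : Continuous f := JF_continuous hf
  have hφc : Continuous φ := hφ.1.continuous
  obtain ⟨M, hM⟩ : ∃ M, ∀ x, φ x ≤ M := by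
    obtain ⟨M, hM⟩ := (hφ.2.1.isCompact_range hφc).bddAbove
    exact ⟨M, fun x => hM ⟨x, rfl⟩⟩
  have hfr : ∀ᵐ p : E m, p ∉ frontier (JF_dom f) := by
    rw [ae_iff]
    simp only [not_not]
    exact (JF_dom_convex f).addHaar_frontier volume
  have hu := hAL (JF_G_CV hf hf' h0 (htt'.trans h1))
  have hu' := hAL (JF_G_CV hf hf' (h0.trans htt') h1)
  have hG0 : ∀ s, 0 ≤ s → ∀ x, f x ≤ JF_G f φ s x := by
    intro s hs x
    have := mul_nonneg hs (hφ.2.2 x)
    simp only [JF_G]
    linarith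
  have hGM : ∀ s, 0 ≤ s → ∀ x, JF_G f φ s x ≤ f x + s * M := by
    intro s hs x
    have := mul_le_mul_of_nonneg_left (hM x) hs
    simp only [JF_G]
    linarith
  have hGc : ∀ s, Continuous (JF_G f φ s) := by
    intro s
    unfold JF_G
    fun_prop
  have main : ∀ᵐ p : E m, (t' - t) * sel φ (JF_G f φ t') p ≤
      conj (JF_G f φ t) p - conj (JF_G f φ t') p ∧
      conj (JF_G f φ t) p - conj (JF_G f φ t') p ≤ (t' - t) * sel φ (JF_G f φ t) p := by
    filter_upwards [hfr, hu, hu'] with p hp hup hup'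
    by_cases hd : p ∈ JF_dom f
    · have hint : p ∈ interior (JF_dom f) := by
        by_contra hni
        exact hp ⟨subset_closure hd, hni⟩
      obtain ⟨δ, hδ, C, hC⟩ := JF_coercive hint
      have hex : ∀ s, 0 ≤ s → ∃ y, IsArgmin (JF_G f φ s) p y := by
        intro s hs
        refine JF_exists_argmin (hGc s) hδ (C := C) fun y => ?_
        have := hG0 s hs y
        have := hC y
        linarith
      obtain ⟨y, hy⟩ := hex t h0
      obtain ⟨y', hy'⟩ := hex t' (h0.trans htt')
      rw [JF_conj_eq hy, JF_conj_eq hy', JF_sel_eq hy hup, JF_sel_eq hy' hup']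
      have e1 := hy y'
      have e2 := hy' y
      simp only [JF_G] at e1 e2 ⊢
      constructor <;> linarith
    · have hnd : ∀ s, 0 ≤ s → ¬ BddAbove (range (fun y => inner ℝ p y - JF_G f φ s y)) := by
        rintro s hs ⟨N, hN⟩
        apply hd
        refine ⟨N + s * M, ?_⟩
        rintro _ ⟨y, rfl⟩
        have a1 : inner ℝ p y - JF_G f φ s y ≤ N := hN ⟨y, rfl⟩
        have a2 := hGM s hs y
        simp only
        linarith
      have hconj : ∀ s, 0 ≤ s → conj (JF_G f φ s) p = 0 := fun s hs =>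
        Real.iSup_of_not_bddAbove (hnd s hs)
      have hsel : ∀ s, 0 ≤ s → sel φ (JF_G f φ s) p = 0 := by
        intro s hs
        have : {z | IsArgmin (JF_G f φ s) p z} = ∅ := by
          ext z
          simp only [mem_ofPred_eq, mem_empty_iff_false, iff_false]
          intro hz
          apply hnd s hs
          refine ⟨inner ℝ p z - JF_G f φ s z, ?_⟩
          rintro _ ⟨w, rfl⟩
          have := hz w
          simp only
          linarith
        rw [sel, this, image_empty, Real.sSup_empty]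
      rw [hconj t h0, hconj t' (h0.trans htt'), hsel t h0, hsel t' (h0.trans htt')]
      simp
  exact ⟨main.mono fun p hp => hp.1, main.mono fun p hp => hp.2⟩

theorem JF_integrable (hAL : ae_argmin_unique_stmt) (hSI : sel_integrable_stmt) {m : ℕ}
    {φ f : E m → ℝ} (hφ : Test φ) (hf : CV f)
    (hf' : CV (fun x => f x + φ x)) {t t' : ℝ} (h0 : 0 ≤ t) (htt' : t ≤ t') (h1 : t' ≤ 1) :
    Integrable (fun p => conj (JF_G f φ t) p - conj (JF_G f φ t') p) := by
  have hfc : Continuous f := JF_continuous hf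
  have hφc : Continuous φ := hφ.1.continuous
  have hGc : ∀ s, Continuous (JF_G f φ s) := by
    intro s
    unfold JF_G
    fun_prop
  have hs := (hSI hφ (JF_G_CV hf hf' h0 (htt'.trans h1))).const_mul (t' - t)
  have hs' := (hSI hφ (JF_G_CV hf hf' (h0.trans htt') h1)).const_mul (t' - t)
  obtain ⟨a1, a2⟩ := JF_step hAL hφ hf hf' h0 htt' h1
  refine (hs.abs.add hs'.abs).mono'
    ((JF_conj_measurable (hGc t)).sub (JF_conj_measurable (hGc t'))).aestronglyMeasurable ?_
  filter_upwards [a1, a2] with p b1 b2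
  rw [Real.norm_eq_abs]
  simp only [Pi.add_apply]
  have c1 := neg_abs_le ((t' - t) * sel φ (JF_G f φ t') p)
  have c2 := le_abs_self ((t' - t) * sel φ (JF_G f φ t) p)
  have c3 := abs_nonneg ((t' - t) * sel φ (JF_G f φ t') p)
  have c4 := abs_nonneg ((t' - t) * sel φ (JF_G f φ t) p)
  rw [abs_le]
  constructor <;> linarith

theorem integral_conj_sub_of (hAL : ae_argmin_unique_stmt) (hSI : sel_integrable_stmt) :
    integral_conj_sub_stmt := by
  intro m φ f hφ hf hf'
  set a : ℝ → ℝ := fun s => A φ (fun x => f x + s * φ x) with ha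
  -- the variation between two times
  have hbd : ∀ t t', 0 ≤ t → t ≤ t' → t' ≤ 1 →
      (t' - t) * a t' ≤ (∫ p, (conj (JF_G f φ t) p - conj (JF_G f φ t') p)) ∧
      (∫ p, (conj (JF_G f φ t) p - conj (JF_G f φ t') p)) ≤ (t' - t) * a t := by
    intro t t' h0 htt' h1
    obtain ⟨a1, a2⟩ := JF_step hAL hφ hf hf' h0 htt' h1
    have hi := JF_integrable hAL hSI hφ hf hf' h0 htt' h1
    have hs := (hSI hφ (JF_G_CV hf hf' h0 (htt'.trans h1))).const_mul (t' - t)
    have hs' := (hSI hφ (JF_G_CV hf hf' (h0.trans htt') h1)).const_mul (t' - t)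
    have b1 := integral_mono_ae hs' hi a1
    have b2 := integral_mono_ae hi hs a2
    rw [integral_const_mul] at b1 b2
    exact ⟨b1, b2⟩
  -- monotonicity
  have hanti : AntitoneOn a (Icc 0 1) := by
    intro t ht t' ht' htt'
    rcases htt'.eq_or_lt with h | h
    · rw [h]
    · obtain ⟨b1, b2⟩ := hbd t t' ht.1 htt' ht'.2
      exact le_of_mul_le_mul_left (b1.trans b2) (sub_pos.mpr h)
  have hint : ∀ t t', 0 ≤ t → t ≤ t' → t' ≤ 1 → IntervalIntegrable a volume t t' := by
    intro t t' h0 htt' h1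
    refine AntitoneOn.intervalIntegrable (hanti.mono ?_)
    rw [uIcc_of_le htt']
    exact Icc_subset_Icc h0 h1
  have hIbd : ∀ t t', 0 ≤ t → t ≤ t' → t' ≤ 1 →
      (t' - t) * a t' ≤ (∫ s in t..t', a s) ∧ (∫ s in t..t', a s) ≤ (t' - t) * a t := by
    intro t t' h0 htt' h1
    constructor
    · have := intervalIntegral.integral_mono_on htt' (intervalIntegrable_const (c := a t'))
        (hint t t' h0 htt' h1) (fun s hs => hanti ⟨h0.trans hs.1, hs.2.trans h1⟩
          ⟨h0.trans htt', h1⟩ hs.2)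
      simpa using this
    · have := intervalIntegral.integral_mono_on htt' (hint t t' h0 htt' h1)
        (intervalIntegrable_const (c := a t)) (fun s hs => hanti ⟨h0, htt'.trans h1⟩
          ⟨h0.trans hs.1, hs.2.trans h1⟩ hs.1)
      simpa using this
  -- summation
  have hsum : ∀ n : ℕ, 0 < n → |(∫ p, (conj (JF_G f φ 0) p - conj (JF_G f φ 1) p)) -
      ∫ s in (0 : ℝ)..1, a s| ≤ (a 0 - a 1) / n := by
    intro n hn
    have hn' : (0 : ℝ) < n := by exact_mod_cast hn
    have key : ∀ k : ℕ, k ≤ n → |(∫ p, (conj (JF_G f φ 0) p - conj (JF_G f φ (k / n)) p)) -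
        ∫ s in (0 : ℝ)..(k / n), a s| ≤ (a 0 - a (k / n)) / n := by
      intro k
      induction k with
      | zero => intro _; simp
      | succ k ih =>
        intro hk
        have hm1 : (k : ℝ) / n ≤ 1 := by
          rw [div_le_one hn']; exact_mod_cast (Nat.le_of_succ_le hk)
        have hm0 : 0 ≤ (k : ℝ) / n := by positivity
        have hm2 : ((k + 1 : ℕ) : ℝ) / n ≤ 1 := by
          rw [div_le_one hn']; exact_mod_cast hk
        have hm3 : ((k + 1 : ℕ) : ℝ) / n - (k : ℝ) / n = 1 / n := by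
          push_cast; ring
        have hm4 : (k : ℝ) / n ≤ ((k + 1 : ℕ) : ℝ) / n := by
          have : (0 : ℝ) < 1 / n := by positivity
          linarith
        have h1 := ih (Nat.le_of_succ_le hk)
        obtain ⟨h2, h2'⟩ := hbd _ _ hm0 hm4 hm2
        obtain ⟨h4, h4'⟩ := hIbd _ _ hm0 hm4 hm2
        rw [hm3] at h2 h2' h4 h4'
        have i1 := JF_integrable hAL hSI hφ hf hf' le_rfl hm0 hm1
        have i2 := JF_integrable hAL hSI hφ hf hf' hm0 hm4 hm2
        have h3 : (∫ p, (conj (JF_G f φ 0) p - conj (JF_G f φ ((k + 1 : ℕ) / n)) p)) =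
            (∫ p, (conj (JF_G f φ 0) p - conj (JF_G f φ (k / n)) p)) +
            ∫ p, (conj (JF_G f φ (k / n)) p - conj (JF_G f φ ((k + 1 : ℕ) / n)) p) := by
          rw [← integral_add i1 i2]
          apply integral_congr_ae
          filter_upwards with p
          ring
        have h5 : (∫ s in (0 : ℝ)..((k + 1 : ℕ) / n), a s)
            = (∫ s in (0 : ℝ)..(k / n), a s) + ∫ s in ((k : ℝ) / n)..((k + 1 : ℕ) / n), a s :=
          (intervalIntegral.integral_add_adjacent_intervals (hint _ _ le_rfl hm0 hm1)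
            (hint _ _ hm0 hm4 hm2)).symm
        rw [h3, h5]
        have h6 : (a 0 - a (((k + 1 : ℕ) : ℝ) / n)) / n = (a 0 - a ((k : ℝ) / n)) / n
            + (1 / n * a ((k : ℝ) / n) - 1 / n * a (((k + 1 : ℕ) : ℝ) / n)) := by ring
        rw [h6]
        rw [abs_le] at h1 ⊢
        constructor <;> linarith [h1.1, h1.2]
    have h4 := key n le_rfl
    rw [div_self hn'.ne'] at h4
    exact h4
  have h0 : conj (JF_G f φ 0) = conj f := by
    congr 1
    funext x
    simp [JF_G]
  have h1 : conj (JF_G f φ 1) = conj (fun x => f x + φ x) := by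
    congr 1
    funext x
    simp [JF_G]
  rw [h0, h1] at hsum
  have hlim : Tendsto (fun n : ℕ => (a 0 - a 1) / (n : ℝ)) atTop (𝓝 0) :=
    tendsto_const_div_atTop_nhds_zero_nat _
  have h6 : |(∫ p, (conj f p - conj (fun x => f x + φ x) p)) - ∫ s in (0 : ℝ)..1, a s| ≤ 0 := by
    refine ge_of_tendsto hlim ?_
    filter_upwards [eventually_gt_atTop 0] with n hn
    exact hsum n hn
  have h7 := abs_eq_zero.1 (le_antisymm h6 (abs_nonneg _))
  linarith

end Pool.Agent.helper83.SC
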