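import Pool.Agent.helper83.SC.Stmt

/-!
Modules VO1 and VO2 of the SC project: bodies and the volume (port of helper41/Sch/VO to all dimensions).
-/

open scoped Pointwise ContDiff
open MeasureTheory Set Filter Topology

namespace Pool.Agent.helper83.SC

/-! ## module VO1 -/

theorem VO_add {m : ℕ} {A A' : Set (E m × ℝ)} (hA : Body A) (hA' : Body A') : Body (A + A') :=
  ⟨hA.1.add hA'.1, hA.2.1.add hA'.2.1, hA.2.2.add hA'.2.2⟩

theorem VO_cont {m : ℕ} (y : E m) (s : ℝ) : Continuous (fun x : E m × ℝ => inner ℝ x.1 y + x.2 * s) := by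
  fun_prop

theorem VO_bdd {m : ℕ} {A : Set (E m × ℝ)} (hA : Body A) (y : E m) (s : ℝ) :
    BddAbove ((fun x : E m × ℝ => inner ℝ x.1 y + x.2 * s) '' A) :=
  (hA.1.image (VO_cont y s)).bddAbove

theorem VO_le_H {m : ℕ} {A : Set (E m × ℝ)} (hA : Body A) {x : E m × ℝ} (hx : x ∈ A) (y : E m) (s : ℝ) :
    inner ℝ x.1 y + x.2 * s ≤ H A y s :=
  le_csSup (VO_bdd hA y s) (mem_image_of_mem _ hx)

theorem VO_attained {m : ℕ} {A : Set (E m × ℝ)} (hA : Body A) (y : E m) (s : ℝ) :
    ∃ x ∈ A, inner ℝ x.1 y + x.2 * s = H A y s := by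
  have h := (hA.1.image (VO_cont y s)).sSup_mem (hA.2.2.image _)
  obtain ⟨x, hx, h⟩ := h
  exact ⟨x, hx, h⟩

theorem VO_H_add {m : ℕ} {A A' : Set (E m × ℝ)} (hA : Body A) (hA' : Body A') (y : E m) (s : ℝ) :
    H (A + A') y s = H A y s + H A' y s := by
  apply le_antisymm
  · obtain ⟨x, hx, h⟩ := VO_attained (VO_add hA hA') y s
    rw [← h]
    obtain ⟨a, ha, b, hb, rfl⟩ := hx
    have h1 := VO_le_H hA ha y s
    have h2 := VO_le_H hA' hb y s
    simp only [Prod.fst_add, Prod.snd_add, inner_add_left] at h1 h2 ⊢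
    linarith
  · obtain ⟨a, ha, h1⟩ := VO_attained hA y s
    obtain ⟨b, hb, h2⟩ := VO_attained hA' y s
    have h3 := VO_le_H (VO_add hA hA') (add_mem_add ha hb) y s
    simp only [Prod.fst_add, Prod.snd_add, inner_add_left] at h1 h2 h3 ⊢
    linarith

theorem VO_F_CV {m : ℕ} {A : Set (E m × ℝ)} (hA : Body A) : CV (F A) := by
  refine ⟨convex_univ, fun y _ z _ a b ha hb hab => ?_⟩
  obtain ⟨x, hx, h⟩ := VO_attained hA (a • y + b • z) 1
  unfold F
  rw [← h]
  have h1 := mul_le_mul_of_nonneg_left (VO_le_H hA hx y 1) ha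
  have h2 := mul_le_mul_of_nonneg_left (VO_le_H hA hx z 1) hb
  have h3 : x.2 * 1 = a * (x.2 * 1) + b * (x.2 * 1) := by
    rw [← add_mul, hab, one_mul]
  simp only [smul_eq_mul]
  have h4 : inner ℝ x.1 (a • y + b • z) = a * inner ℝ x.1 y + b * inner ℝ x.1 z := by
    rw [inner_add_right, real_inner_smul_right, real_inner_smul_right]
  rw [h4]
  linarith

/-- VO1 -/
theorem Body_add : Body_add_stmt := fun hK hK' => VO_add hK hK'

theorem H_add : H_add_stmt := fun hK hK' y s => VO_H_add hK hK' y s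

theorem F_CV : F_CV_stmt := fun hK => VO_F_CV hK

/-! ## module VO2 -/

theorem VO_dual {m : ℕ} (f : StrongDual ℝ (E m × ℝ)) :
    ∃ (y : E m) (s : ℝ), ∀ x : E m × ℝ, f x = inner ℝ x.1 y + x.2 * s := by
  refine ⟨(InnerProductSpace.toDual ℝ (E m)).symm (f.comp (ContinuousLinearMap.inl ℝ (E m) ℝ)),
    f ((0 : E m), (1 : ℝ)), fun x => ?_⟩
  have h1 : x = (x.1, 0) + x.2 • ((0 : E m), (1 : ℝ)) := by
    ext <;> simp
  conv_lhs => rw [h1]
  rw [map_add, map_smul, real_inner_comm, InnerProductSpace.toDual_symm_apply, smul_eq_mul]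
  rfl

theorem VO_sep {m : ℕ} {A : Set (E m × ℝ)} (hA : Body A) {x : E m × ℝ} (hx : x ∉ A) :
    ∃ (y : E m) (s : ℝ), H A y s < inner ℝ x.1 y + x.2 * s := by
  obtain ⟨f, u, h1, h2⟩ := geometric_hahn_banach_closed_point hA.2.1 hA.1.isClosed hx
  obtain ⟨y, s, hf⟩ := VO_dual f
  refine ⟨y, s, ?_⟩
  obtain ⟨a, ha, h3⟩ := VO_attained hA y s
  rw [← h3, ← hf, ← hf]
  exact (h1 a ha).trans h2

theorem VO_proj {m : ℕ} {A : Set (E m × ℝ)} (hA : Body A) : Body ((Prod.fst '' A) ×ˢ ({0} : Set ℝ)) := by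
  refine ⟨(hA.1.image continuous_fst).prod isCompact_singleton, ?_, ?_⟩
  · refine Convex.prod ?_ (convex_singleton 0)
    exact hA.2.1.linear_image (LinearMap.fst ℝ (E m) ℝ)
  · obtain ⟨x, hx⟩ := hA.2.2
    exact ⟨(x.1, 0), ⟨⟨x, hx, rfl⟩, rfl⟩⟩

theorem VO_sep_proj {m : ℕ} {A : Set (E m × ℝ)} (hA : Body A) {p : E m} (hp : p ∉ Prod.fst '' A) :
    ∃ y : E m, H A y 0 < inner ℝ p y := by
  have hx : ((p, 0) : E m × ℝ) ∉ (Prod.fst '' A) ×ˢ ({0} : Set ℝ) := fun h => hp h.1
  obtain ⟨y, s, h⟩ := VO_sep (VO_proj hA) hx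
  refine ⟨y, ?_⟩
  simp only [zero_mul, add_zero] at h
  refine lt_of_le_of_lt ?_ h
  obtain ⟨a, ha, h3⟩ := VO_attained hA y 0
  rw [← h3]
  have := VO_le_H (VO_proj hA) (x := (a.1, 0)) ⟨⟨a, ha, rfl⟩, rfl⟩ y s
  simp only [zero_mul, mul_zero, add_zero] at this ⊢
  exact this

theorem VO_conj_le {m : ℕ} {A : Set (E m × ℝ)} (hA : Body A) {x : E m × ℝ} (hx : x ∈ A) :
    BddAbove (range fun y => inner ℝ x.1 y - F A y) ∧ x.2 ≤ -conj (F A) x.1 := by
  have h : ∀ y, inner ℝ x.1 y - F A y ≤ -x.2 := by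
    intro y
    have := VO_le_H hA hx y 1
    unfold F
    linarith
  refine ⟨⟨-x.2, ?_⟩, ?_⟩
  · rintro _ ⟨y, rfl⟩
    exact h y
  · have : conj (F A) x.1 ≤ -x.2 := ciSup_le h
    linarith

theorem VO_attained_conj {m : ℕ} {A : Set (E m × ℝ)} (hA : Body A) {p : E m} (hp : p ∈ Prod.fst '' A) :
    (p, -conj (F A) p) ∈ A := by
  obtain ⟨x, hx, rfl⟩ := hp
  -- the slice
  set Z : Set ℝ := (fun z : ℝ => (x.1, z)) ⁻¹' A with hZ
  have hZc : IsCompact Z := by
    have h1 : IsClosed Z := hA.1.isClosed.preimage (by fun_prop)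
    obtain ⟨R, hR⟩ := hA.1.isBounded.exists_norm_le
    refine (isCompact_Icc (a := -R) (b := R)).of_isClosed_subset h1 ?_
    intro z hz
    have := (norm_snd_le ((x.1, z) : E m × ℝ)).trans (hR _ hz)
    rw [Real.norm_eq_abs, abs_le] at this
    exact this
  have hZn : Z.Nonempty := ⟨x.2, hx⟩
  have hm := hZc.sSup_mem hZn
  set u := sSup Z with hu
  have hmA : (x.1, u) ∈ A := hm
  have h1 : u ≤ -conj (F A) x.1 := (VO_conj_le hA hmA).2
  have h2 : -conj (F A) x.1 ≤ u := by
    by_contra h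
    push Not at h
    have hn : ((x.1, -conj (F A) x.1) : E m × ℝ) ∉ A := by
      intro h3
      have : -conj (F A) x.1 ≤ u := le_csSup hZc.bddAbove h3
      linarith
    obtain ⟨z, hz1, hz2⟩ := exists_between h
    have hn' : ((x.1, z) : E m × ℝ) ∉ A := by
      intro h3
      have : z ≤ u := le_csSup hZc.bddAbove h3
      linarith
    obtain ⟨y, s, hys⟩ := VO_sep hA hn'
    have h4 := VO_le_H hA hmA y s
    have hs : 0 < s := by
      have h5 : u * s < z * s := by
        simp only at h4 hys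
        linarith
      by_contra h6
      push Not at h6
      nlinarith
    have h5 : F A (s⁻¹ • y) < inner ℝ x.1 (s⁻¹ • y) + z := by
      unfold F
      obtain ⟨a, ha, h6⟩ := VO_attained hA (s⁻¹ • y) 1
      rw [← h6]
      have h7 := lt_of_le_of_lt (VO_le_H hA ha y s) hys
      have h8 : ∀ v : E m, inner ℝ v (s⁻¹ • y) = s⁻¹ * inner ℝ v y := by
        intro v
        exact real_inner_smul_right _ _ _
      rw [h8, h8]
      have h9 := mul_lt_mul_of_pos_left h7 (inv_pos.2 hs)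
      have h10 : s⁻¹ * (inner ℝ a.1 y + a.2 * s) = s⁻¹ * inner ℝ a.1 y + a.2 * 1 := by
        field_simp
      have h11 : s⁻¹ * (inner ℝ x.1 y + z * s) = s⁻¹ * inner ℝ x.1 y + z := by
        field_simp
      simp only at h9
      rw [h10, h11] at h9
      exact h9
    have h6 : inner ℝ x.1 (s⁻¹ • y) - F A (s⁻¹ • y) ≤ conj (F A) x.1 :=
      le_ciSup (VO_conj_le hA hx).1 (s⁻¹ • y)
    linarith
  have h3 : u = -conj (F A) x.1 := le_antisymm h1 h2
  rw [← h3]
  exact hmA

theorem VO_conj_off {m : ℕ} {A : Set (E m × ℝ)} (hA : Body A) {p : E m} (hp : p ∉ Prod.fst '' A) :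
    conj (F A) p = 0 := by
  obtain ⟨y, hy⟩ := VO_sep_proj hA hp
  apply Real.iSup_of_not_bddAbove
  rintro ⟨M, hM⟩
  obtain ⟨R, hR⟩ := hA.1.isBounded.exists_norm_le
  set δ := inner ℝ p y - H A y 0 with hδ
  have hδ0 : 0 < δ := by linarith
  have h : ∀ t : ℝ, 0 ≤ t → t * δ - R ≤ M := by
    intro t ht
    have h1 := hM ⟨t • y, rfl⟩
    simp only at h1
    obtain ⟨a, ha, h2⟩ := VO_attained hA (t • y) 1
    have h3 := VO_le_H hA ha y 0
    have h4 : a.2 ≤ R := by
      have := (norm_snd_le a).trans (hR a ha)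
      rw [Real.norm_eq_abs, abs_le] at this
      exact this.2
    have h5 : ∀ v : E m, inner ℝ v (t • y) = t * inner ℝ v y := by
      intro v
      exact real_inner_smul_right _ _ _
    have h6 : F A (t • y) = t * inner ℝ a.1 y + a.2 := by
      unfold F
      rw [← h2, h5]
      ring
    rw [h5, h6] at h1
    have h7 := mul_le_mul_of_nonneg_left h3 ht
    simp only [mul_zero, add_zero] at h7
    have h8 : t * δ = t * inner ℝ p y - t * H A y 0 := by rw [hδ]; ring
    linarith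
  have h1 := h ((|M| + |R| + 1) / δ) (by positivity)
  rw [div_mul_cancel₀ _ hδ0.ne'] at h1
  have h2 := le_abs_self M
  have h3 := le_abs_self R
  linarith

theorem VO_subset {m : ℕ} {A A' : Set (E m × ℝ)} (hA : Body A) (hA' : Body A') {φ : E m → ℝ} (hφ : Test φ)
    (h : ∀ y s, H A' y s = H A y s + tilde φ y s) : A ⊆ A' := by
  intro x hx
  by_contra hx'
  obtain ⟨y, s, hys⟩ := VO_sep hA' hx'
  have h1 := VO_le_H hA hx y s
  have h2 : 0 ≤ tilde φ y s := by
    unfold tilde
    split_ifs with hs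
    · exact mul_nonneg hs.le (hφ.2.2 _)
    · exact le_rfl
  rw [h y s] at hys
  linarith

theorem VO_proj_eq {m : ℕ} {A A' : Set (E m × ℝ)} (hA : Body A) (hA' : Body A') {φ : E m → ℝ} (hφ : Test φ)
    (h : ∀ y s, H A' y s = H A y s + tilde φ y s) : Prod.fst '' A' = Prod.fst '' A := by
  apply Subset.antisymm
  · rintro _ ⟨x, hx, rfl⟩
    by_contra hp
    obtain ⟨y, hy⟩ := VO_sep_proj hA hp
    have h1 := VO_le_H hA' hx y 0
    have h2 := h y 0
    simp only [tilde, lt_irrefl, if_false, add_zero] at h2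
    rw [h2] at h1
    simp only [mul_zero, add_zero] at h1
    linarith
  · exact image_mono (VO_subset hA hA' hφ h)

theorem VO_slice {m : ℕ} {A A' : Set (E m × ℝ)} (hA : Body A) (hA' : Body A') {φ : E m → ℝ} (hφ : Test φ)
    (h : ∀ y s, H A' y s = H A y s + tilde φ y s) {p : E m} (hp : p ∈ Prod.fst '' A) :
    Prod.mk p ⁻¹' (A' \ A) = Ioc (-conj (F A) p) (-conj (F A') p) := by
  have hp' : p ∈ Prod.fst '' A' := by rw [VO_proj_eq hA hA' hφ h]; exact hp
  ext z
  simp only [mem_preimage, Set.mem_sdiff, mem_Ioc]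
  constructor
  · rintro ⟨h1, h2⟩
    refine ⟨?_, (VO_conj_le hA' h1).2⟩
    by_contra h3
    push Not at h3
    obtain ⟨y, s, hys⟩ := VO_sep hA h2
    have h4 := VO_le_H hA (VO_attained_conj hA hp) y s
    have h5 := VO_le_H hA' h1 y s
    rw [h y s] at h5
    simp only at h4 h5 hys
    have hs : ¬ 0 < s := by
      intro hs
      have : z * s ≤ -conj (F A) p * s := mul_le_mul_of_nonneg_right h3 hs.le
      linarith
    simp only [tilde, hs, if_false, add_zero] at h5
    linarith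
  · rintro ⟨h1, h2⟩
    constructor
    · have h3 := VO_subset hA hA' hφ h (VO_attained_conj hA hp)
      have h4 := VO_attained_conj hA' hp'
      have h5 : ((p, z) : E m × ℝ) ∈ segment ℝ (p, -conj (F A) p) (p, -conj (F A') p) := by
        have h6 : z ∈ segment ℝ (-conj (F A) p) (-conj (F A') p) := by
          rw [segment_eq_Icc (h1.le.trans h2)]
          exact ⟨h1.le, h2⟩
        obtain ⟨a, b, ha, hb, hab, h7⟩ := h6
        refine ⟨a, b, ha, hb, hab, ?_⟩
        refine Prod.ext ?_ h7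
        simp only [Prod.smul_mk, Prod.mk_add_mk]
        rw [← add_smul, hab, one_smul]
      exact hA'.2.1.segment_subset h3 h4 h5
    · intro h3
      have := (VO_conj_le hA h3).2
      simp only at this
      linarith

theorem VO_volume_sub {m : ℕ} {A A' : Set (E m × ℝ)} (hA : Body A) (hA' : Body A') {φ : E m → ℝ} (hφ : Test φ)
    (h : ∀ y s, H A' y s = H A y s + tilde φ y s) :
    (volume A').toReal - (volume A).toReal = ∫ p, (conj (F A) p - conj (F A') p) := by
  have hsub := VO_subset hA hA' hφ h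
  have hmeas : MeasurableSet (A' \ A) := hA'.1.isClosed.measurableSet.diff hA.1.isClosed.measurableSet
  have hfin : volume A' ≠ ⊤ := hA'.1.measure_lt_top.ne
  have hfinA : volume A ≠ ⊤ := hA.1.measure_lt_top.ne
  have h1 : (volume (A' \ A)).toReal = (volume A').toReal - (volume A).toReal := by
    rw [measure_sdiff hsub hA.1.isClosed.measurableSet.nullMeasurableSet hfinA,
      ENNReal.toReal_sub_of_le (measure_mono hsub) hfin]
  rw [← h1]
  have h2 : ∀ p : E m, conj (F A) p - conj (F A') p = (volume (Prod.mk p ⁻¹' (A' \ A))).toReal := by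
    intro p
    by_cases hp : p ∈ Prod.fst '' A
    · rw [VO_slice hA hA' hφ h hp, Real.volume_Ioc, ENNReal.toReal_ofReal]
      · ring
      · have h3 := VO_subset hA hA' hφ h (VO_attained_conj hA hp)
        have h4 := (VO_conj_le hA' h3).2
        simp only at h4
        linarith
    · have hp' : p ∉ Prod.fst '' A' := by rw [VO_proj_eq hA hA' hφ h]; exact hp
      rw [VO_conj_off hA hp, VO_conj_off hA' hp']
      have : Prod.mk p ⁻¹' (A' \ A) = ∅ := by
        apply eq_empty_of_forall_notMem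
        intro z hz
        exact hp' ⟨(p, z), hz.1, rfl⟩
      rw [this]
      simp
  have h3 : (volume : Measure (E m × ℝ)) (A' \ A) = ∫⁻ p, volume (Prod.mk p ⁻¹' (A' \ A)) := by
    rw [Measure.volume_eq_prod, Measure.prod_apply hmeas]
  have h4 : (∫⁻ p, volume (Prod.mk p ⁻¹' (A' \ A))) ≠ ⊤ := by
    rw [← h3]
    exact ((measure_mono sdiff_subset).trans_lt hA'.1.measure_lt_top).ne
  rw [funext h2, integral_toReal]
  · rw [h3]
  · exact (measurable_measure_prodMk_left hmeas).aemeasurable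
  · exact ae_lt_top (measurable_measure_prodMk_left hmeas) h4

/-- VO2 -/
theorem volume_sub : volume_sub_stmt := fun hK hK' _ hφ h => VO_volume_sub hK hK' hφ h

end Pool.Agent.helper83.SC

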